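import Mathlib
import Pool.Agent.helper35.MF.Ring

/-!
# MP_141f81, Section 8, part (A): the contraction (8d)
-/

set_option autoImplicit false

namespace Pool.Agent.MF.S8

open Pool.Agent.helper35.MF

/-- a chain of length `l` in `K` from `u` to `v` with steps of norm at most `R` -/
def Chain {G : Type} [AddCommGroup G] (N : G → ℕ) (K : Set G) (R l : ℕ) (u v : G) : Prop :=
  ∃ w : ℕ → G, w 0 = u ∧ w l = v ∧ (∀ i, w i ∈ K) ∧ ∀ i < l, N (w i + w (i + 1)) ≤ R

section

variable {G : Type} [AddCommGroup G] {N : G → ℕ} {K : Set G} {C R : ℕ} {β : ℕ → ℕ}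

theorem Chain.trans {l1 l2 : ℕ} {u v w : G} (h1 : Chain N K R l1 u v) (h2 : Chain N K R l2 v w) :
    Chain N K R (l1 + l2) u w := by
  obtain ⟨f, hf0, hfl, hfK, hf⟩ := h1
  obtain ⟨g, hg0, hgl, hgK, hg⟩ := h2
  refine ⟨fun i => if i ≤ l1 then f i else g (i - l1), ?_, ?_, ?_, ?_⟩
  · simp only [Nat.zero_le, if_true]
    exact hf0
  · rcases Nat.eq_zero_or_pos l2 with h | h
    · subst h
      simp only [add_zero, le_refl, if_true]
      rw [hfl, ← hg0, hgl]
    · simp only []
      rw [if_neg (by omega), Nat.add_sub_cancel_left]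
      exact hgl
  · intro i
    simp only []
    split_ifs
    · exact hfK i
    · exact hgK _
  · intro i hi
    simp only []
    by_cases h : i + 1 ≤ l1
    · rw [if_pos (by omega), if_pos h]
      exact hf i (by omega)
    · rw [if_neg h]
      by_cases h' : i ≤ l1
      · have hil : i = l1 := by omega
        subst hil
        rw [if_pos le_rfl, hfl, ← hg0]
        have h3 := hg 0 (by omega)
        have h4 : i + 1 - i = 0 + 1 := by omega
        rw [h4]
        exact h3
      · rw [if_neg h']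
        have h3 := hg (i - l1) (by omega)
        have h4 : i + 1 - l1 = i - l1 + 1 := by omega
        rw [h4]
        exact h3

theorem Chain.norm (h : CGroup N K C R β) {l : ℕ} {u v : G} (hc : Chain N K R l u v) :
    N (u + v) ≤ R * l := by
  obtain ⟨w, hw0, hwl, -, hw⟩ := hc
  have key : ∀ i ≤ l, N (u + w i) ≤ R * i := by
    intro i
    induction i with
    | zero =>
      intro _
      rw [hw0, h.two, h.N0]
      exact Nat.zero_le _
    | succ i ih =>
      intro hi
      have h1 := ih (by omega)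
      have h2 := hw i (by omega)
      have h3 := h.Nadd (u + w i) (w i + w (i + 1))
      have h4 : u + w i + (w i + w (i + 1)) = u + w (i + 1) := by
        rw [← add_assoc, h.cancel]
      rw [h4] at h3
      calc N (u + w (i + 1)) ≤ R * i + R := by omega
        _ = R * (i + 1) := by ring
  have h1 := key l le_rfl
  rwa [hwl] at h1

/-- **8d, the contraction.**  Only elements of norm at most `S1` resp. `S3` are used. -/
theorem contraction (h : CGroup N K C R β) {T φ : G → G} {F : ℕ → ℕ} (hF : Monotone F)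
    {Λ ρ C1 S1 S3 : ℕ} (hΛ0 : 0 < Λ)
    (hΛ : ∀ u ∈ K, ∀ v ∈ K, N (u + v) ≤ F (C1 + 2 * ρ) → ∃ l ≤ Λ, Chain N K R l u v)
    (h0 : N (φ 0 + T 0) ≤ ρ)
    (hd : ∀ u ∈ K, N u ≤ S1 → ∃ v ∈ K, N v ≤ S3 ∧ N (φ v + T u) ≤ ρ)
    (hinv : ∀ u ∈ K, ∀ v ∈ K, N u ≤ S3 → N v ≤ S3 → N (u + v) ≤ F (N (φ u + φ v)))
    (hs : ∀ u ∈ K, ∀ v ∈ K, N u ≤ S1 → N v ≤ S1 → N (u + v) ≤ R * (2 * Λ) →
      N (T u + T v) ≤ C1)
    {e : G} (he : e ∈ K) (heS : N e ≤ S3) (hlen : ∃ l, Chain N K R l 0 e ∧ R * l ≤ S1)
    (hTe : N (φ e + T e) ≤ ρ) : N e ≤ R * (2 * Λ) := by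
  classical
  obtain ⟨l0, hl0, hl0S⟩ := hlen
  have hex : ∃ l, Chain N K R l 0 e := ⟨l0, hl0⟩
  set l := Nat.find hex with hl
  have hmin : ∀ m, Chain N K R m 0 e → l ≤ m := fun m hm => Nat.find_min' hex hm
  have hcl : Chain N K R l 0 e := Nat.find_spec hex
  have hll0 : R * l ≤ S1 := le_trans (Nat.mul_le_mul_left _ (hmin l0 hl0)) hl0S
  obtain ⟨w, hw0, hwl, hwK, hw⟩ := hcl
  have hwS : ∀ i ≤ l, N (w i) ≤ S1 := by
    intro i hi
    have hc : Chain N K R i 0 (w i) := ⟨w, hw0, rfl, hwK, fun j hj => hw j (by omega)⟩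
    have h1 := hc.norm h
    rw [zero_add] at h1
    exact le_trans h1 (le_trans (Nat.mul_le_mul_left _ hi) hll0)
  set b := 2 * Λ with hb
  set k := l / b + 1 with hk
  have hb0 : 0 < b := by omega
  have hkb : l ≤ k * b := by
    have h1 := Nat.div_add_mod l b
    have h2 := Nat.mod_lt l hb0
    rw [hk, add_mul, one_mul, mul_comm]
    omega
  -- the points of the subdivided chain
  let p : ℕ → ℕ := fun i => min (i * b) l
  have hp0 : p 0 = 0 := by simp [p]
  have hpk : p k = l := by simp only [p]; exact min_eq_right hkb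
  have hpstep : ∀ i, p (i + 1) ≤ p i + b := by
    intro i
    simp only [p]
    have h1 : (i + 1) * b = i * b + b := by ring
    rw [h1]
    omega
  have hpl : ∀ i, p i ≤ l := fun i => min_le_right _ _
  have hpmono : ∀ i, p i ≤ p (i + 1) := by
    intro i
    simp only [p]
    have h1 : (i + 1) * b = i * b + b := by ring
    rw [h1]
    omega
  have hT : ∀ i, N (T (w (p i)) + T (w (p (i + 1)))) ≤ C1 := by
    intro i
    refine hs _ (hwK _) _ (hwK _) (hwS _ (hpl _)) (hwS _ (hpl _)) ?_
    have hc : Chain N K R (p (i + 1) - p i) (w (p i)) (w (p (i + 1))) := by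
      refine ⟨fun j => w (p i + j), rfl, ?_, fun j => hwK _, ?_⟩
      · simp only []
        rw [Nat.add_sub_cancel' (hpmono i)]
      · intro j hj
        have h1 := hpl (i + 1)
        exact hw (p i + j) (by omega)
    refine le_trans (hc.norm h) (Nat.mul_le_mul_left _ ?_)
    have h1 := hpstep i
    omega
  choose! g hgK hgS hg using hd
  let v : ℕ → G := fun i => if i = 0 then 0 else if i = k then e else g (w (p i))
  have hv0 : v 0 = 0 := by simp [v]
  have hvk : v k = e := by
    have hk0 : k ≠ 0 := Nat.succ_ne_zero _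
    simp only [v, if_neg hk0, if_true]
  have hvK : ∀ i, v i ∈ K := by
    intro i
    simp only [v]
    split_ifs
    · exact h.zero
    · exact he
    · exact hgK _ (hwK _) (hwS _ (hpl _))
  have hvS : ∀ i, N (v i) ≤ S3 := by
    intro i
    simp only [v]
    split_ifs
    · rw [h.N0]
      exact Nat.zero_le _
    · exact heS
    · exact hgS _ (hwK _) (hwS _ (hpl _))
  have hφ : ∀ i, N (φ (v i) + T (w (p i))) ≤ ρ := by
    intro i
    simp only [v]
    split_ifs with h1 h2
    · subst h1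
      rw [hp0, hw0]
      exact h0
    · subst h2
      rw [hpk, hwl]
      exact hTe
    · exact hg _ (hwK _) (hwS _ (hpl _))
  have hstep : ∀ i, N (v i + v (i + 1)) ≤ F (C1 + 2 * ρ) := by
    intro i
    refine le_trans (hinv _ (hvK i) _ (hvK (i + 1)) (hvS i) (hvS (i + 1))) (hF ?_)
    have h1 := h.Nadd (φ (v i) + T (w (p i))) (T (w (p i)) + T (w (p (i + 1))))
    have h2 : φ (v i) + T (w (p i)) + (T (w (p i)) + T (w (p (i + 1)))) =
        φ (v i) + T (w (p (i + 1))) := by rw [← add_assoc, h.cancel]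
    rw [h2] at h1
    have h3 := h.Nadd (φ (v i) + T (w (p (i + 1)))) (φ (v (i + 1)) + T (w (p (i + 1))))
    have h4 : φ (v i) + T (w (p (i + 1))) + (φ (v (i + 1)) + T (w (p (i + 1)))) =
        φ (v i) + φ (v (i + 1)) := by
      rw [add_comm (φ (v (i + 1))), ← add_assoc, h.cancel]
    rw [h4] at h3
    have h5 := hφ i
    have h6 := hφ (i + 1)
    have h7 := hT i
    omega
  have hch : ∀ i, ∃ m ≤ i * Λ, Chain N K R m 0 (v i) := by
    intro i
    induction i with
    | zero =>
      refine ⟨0, by omega, fun _ => 0, rfl, ?_, fun _ => h.zero, ?_⟩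
      · rw [hv0]
      · intro i hi
        omega
    | succ i ih =>
      obtain ⟨m, hm, hc⟩ := ih
      obtain ⟨m', hm', hc'⟩ := hΛ _ (hvK i) _ (hvK (i + 1)) (hstep i)
      refine ⟨m + m', ?_, hc.trans hc'⟩
      have h1 : (i + 1) * Λ = i * Λ + Λ := by ring
      omega
  obtain ⟨m, hm, hc⟩ := hch k
  rw [hvk] at hc
  have hlm := hmin m hc
  have hle : l ≤ b := by
    have h1 : l / b * b ≤ l := Nat.div_mul_le_self l b
    have h2 : k * Λ = l / b * Λ + Λ := by rw [hk]; ring
    have h3 : l / b * b = 2 * (l / b * Λ) := by rw [hb]; ring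
    omega
  have hfin : Chain N K R l 0 e := ⟨w, hw0, hwl, hwK, hw⟩
  have h1 := hfin.norm h
  rw [zero_add] at h1
  exact le_trans h1 (Nat.mul_le_mul_left _ hle)

end

end Pool.Agent.MF.S8
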