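import Mathlib
import Pool.Agent.MF8.Contr

/-!
# MP_141f81, Section 8: the data `KillData` and the statements 8a, 8b, 8c, 8e
-/

set_option autoImplicit false

namespace Pool.Agent.MF.S8

open Pool.Agent.helper35.MF

/-- the constants: `C0` absolute error (lines, sums in `K`), `C` error of the maps, `R` chain step, `β` covering numbers, `F` distortion, `Λ r` chain length of
elements of norm at most `r`, `ρ` density of `φ K`, `E` norm of the inverse images under `φ`, `κ` net radius, `B` ball bound for symbols, `q` number of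
classes, `c` density -/
structure Const where
  C0 : ℕ
  C : ℕ
  C0le : C0 ≤ C
  R : ℕ
  β : ℕ → ℕ
  F : ℕ → ℕ
  Λ : ℕ → ℕ
  E : ℕ → ℕ
  ρ : ℕ
  κ : ℕ
  B : ℕ
  q : ℕ
  c : ℝ
  cpos : 0 < c
  Fmono : Monotone F
  Emono : Monotone E
  Λpos : ∀ r, 0 < Λ r

/-- **The input of Section 8.**  `X`, `Y`, `U` are the symbols of the columns `x`, `y`, `u = x + y`; `A` the set of
(typical, cleaned) lines `(x,y,u)`, `u = th (x,y)`; `pxy`, `pxu` the products, `sq x` the symbol `x` in the role of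
`x²`; `Mx`, `My`, `Mu` the multiplications on `K = K*`, `φ` the squaring.  The statements about `Mx`, `My`, `Mu`,
`φ` are only needed for elements of `K` of norm at most `Lmax`; the classes `c` (modulo the finite index
subgroups `H`) may depend on a centre `g`, only symbols within `Lmax` of `g` count. -/
structure KillData (k : Const) (Lmax : ℕ) {G : Type} [AddCommGroup G] (N : G → ℕ) (K : Set G)
    {X Y U : Type} [Fintype X] [Fintype Y] [Fintype U]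
    (vx : X → G) (vy : Y → G) (vu : U → G) (A : Finset (X × Y)) (th : X × Y → U)
    (pxy : X → Y → G) (pxu : X → U → G) (sq : X → G)
    (Mx : X → G → G) (My : Y → G → G) (Mu : U → G → G) (φ : G → G)
    (D1 D2 : Finset G) : Prop extends CGroup N K k.C0 k.R k.β where
  /-- chains of bounded length -/
  chainΛ : ∀ r, ∀ u ∈ K, ∀ v ∈ K, N (u + v) ≤ r → ∃ l ≤ k.Λ r, Chain N K k.R l u v
  /-- lines -/
  line : ∀ p ∈ A, N (vx p.1 + vy p.2 + vu (th p)) ≤ k.C0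
  /-- `x² = xy + xu` -/
  ident : ∀ p ∈ A, N (sq p.1 + pxy p.1 p.2 + pxu p.1 (th p)) ≤ k.C
  /-- `M_y` on differences of the column `x` -/
  h1 : ∀ g : G, ∃ c : Y → X → Fin k.q, ∀ x x' y, (x, y) ∈ A → (x', y) ∈ A →
    N (vx x + g) ≤ Lmax → N (vx x' + g) ≤ Lmax → c y x = c y x' → ∀ e ∈ K, N e ≤ Lmax →
    N (vx x + vx x' + e) ≤ 2 * k.κ + 9 * k.C0 → N (pxy x y + pxy x' y + My y e) ≤ k.C
  /-- `M_x` on differences of the column `y` -/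
  h2 : ∀ g : G, ∃ c : X → Y → Fin k.q, ∀ x y y', (x, y) ∈ A → (x, y') ∈ A →
    N (vy y + g) ≤ Lmax → N (vy y' + g) ≤ Lmax → c x y = c x y' → ∀ e ∈ K, N e ≤ Lmax →
    N (vy y + vy y' + e) ≤ 2 * k.κ + 9 * k.C0 → N (pxy x y + pxy x y' + Mx x e) ≤ k.C
  /-- `M_u` on differences of the column `x` -/
  h3 : ∀ g : G, ∃ c : U → X → Fin k.q, ∀ p ∈ A, ∀ p' ∈ A, th p = th p' →
    N (vx p.1 + g) ≤ Lmax → N (vx p'.1 + g) ≤ Lmax → c (th p) p.1 = c (th p) p'.1 →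
    ∀ e ∈ K, N e ≤ Lmax → N (vx p.1 + vx p'.1 + e) ≤ 2 * k.κ + 9 * k.C0 →
      N (pxu p.1 (th p) + pxu p'.1 (th p) + Mu (th p) e) ≤ k.C
  /-- `φ` on differences of the column `x` -/
  h4 : ∀ g : G, ∃ c : X → Fin k.q, ∀ p ∈ A, ∀ p' ∈ A,
    N (vx p.1 + g) ≤ Lmax → N (vx p'.1 + g) ≤ Lmax → c p.1 = c p'.1 → ∀ e ∈ K, N e ≤ Lmax →
    N (vx p.1 + vx p'.1 + e) ≤ 2 * k.κ + 9 * k.C0 → N (sq p.1 + sq p'.1 + φ e) ≤ k.C
  /-- `M_x + M_y + M_u ∼ 0` on lines -/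
  hsum : ∀ p ∈ A, ∀ e ∈ K, N e ≤ Lmax → N (Mx p.1 e + My p.2 e + Mu (th p) e) ≤ k.C
  /-- `M_x` maps `K` to `K` and is coarsely additive -/
  MxK : ∀ p ∈ A, ∀ u ∈ K, N u ≤ Lmax → ∃ v ∈ K, N (Mx p.1 u + v) ≤ k.C
  Mxadd : ∀ p ∈ A, ∀ u ∈ K, ∀ v ∈ K, ∀ w ∈ K, N u ≤ Lmax → N v ≤ Lmax → N w ≤ Lmax →
    N (Mx p.1 u + Mx p.1 v + Mx p.1 w) ≤ k.F (N (u + v + w))
  /-- `φ` has dense image and a coarse inverse -/
  φ0 : N (φ 0) ≤ k.ρ
  φdense : ∀ u ∈ K, N u ≤ Lmax → ∃ v ∈ K, N v ≤ k.E (N u) ∧ N (φ v + u) ≤ k.ρ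
  φinv : ∀ u ∈ K, ∀ v ∈ K, N u ≤ Lmax → N v ≤ Lmax → N (u + v) ≤ k.F (N (φ u + φ v))
  /-- nets of the words `x + e`, `y + e` and the density of `A` -/
  net1 : ∀ x, ∀ e ∈ K, ∃ d ∈ D1, N (vx x + e + d) ≤ k.κ
  net2 : ∀ y, ∀ e ∈ K, ∃ d ∈ D2, N (vy y + e + d) ≤ k.κ
  dens : k.c * ((D1.card : ℝ) * (D2.card : ℝ)) ≤ (A.card : ℝ)
  Apos : A.Nonempty
  /-- bounded geometry of the symbols (b-consistency) -/
  ball1 : ∀ g : G, ∀ S : Finset X, (∀ x ∈ S, N (vx x + g) ≤ k.κ) → S.card ≤ k.B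
  ball2 : ∀ g : G, ∀ S : Finset Y, (∀ y ∈ S, N (vy y + g) ≤ k.κ) → S.card ≤ k.B
  ball3 : ∀ g : G, ∀ S : Finset U, (∀ u ∈ S, N (vu u + g) ≤ 2 * k.κ + 10 * k.C0) → S.card ≤ k.B

/-- the cube -/
abbrev V (m : ℕ) : Type := Fin m → ZMod 2

end Pool.Agent.MF.S8
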