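import Mathlib
import Pool.Agent.MF8.Defs
import Pool.Agent.helper57.MF.Spread
import Pool.Agent.helper57.MF.Corner

/-!
# MP_141f81, Section 8: `K*` is bounded (8e)
-/

set_option autoImplicit false

namespace Pool.Agent.MF.S8

open Pool.Agent.helper35.MF

section prelim

variable {G : Type} [AddCommGroup G] {N : G → ℕ} {K : Set G} {C R : ℕ} {β : ℕ → ℕ}

theorem tri (h : CGroup N K C R β) (a b c : G) : N (a + b) ≤ N (a + c) + N (b + c) := by
  have h1 := h.Nadd (a + c) (b + c)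
  have h2 : a + c + (b + c) = a + b := by
    rw [add_comm b c, ← add_assoc, h.cancel]
  rwa [h2] at h1

theorem cover_fin (h : CGroup N K C R β) (r : ℕ) : ∃ e : Fin (β r + 1) → G, (∀ i, e i ∈ K) ∧
    ∀ a ∈ K, N a ≤ r → ∃ i, N (a + e i) ≤ C := by
  classical
  obtain ⟨S, hS, hSK, hcov⟩ := h.cover r
  refine ⟨fun i => if hi : (i : ℕ) < S.card then (S.equivFin.symm ⟨i, hi⟩ : G) else 0, ?_, ?_⟩
  · intro i
    simp only []
    split_ifs with hi
    · exact hSK _ (S.equivFin.symm ⟨i, hi⟩).2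
    · exact h.zero
  · intro a ha hr
    obtain ⟨s, hs, hsa⟩ := hcov a ha hr
    have hlt := (S.equivFin ⟨s, hs⟩).2
    refine ⟨⟨(S.equivFin ⟨s, hs⟩ : ℕ), by omega⟩, ?_⟩
    simp only []
    rw [dif_pos hlt]
    simpa using hsa

theorem number {X : Type} (S : Finset X) (B : ℕ) (hS : S.card ≤ B) :
    ∃ f : X → Fin (B + 1), ∀ x ∈ S, ∀ y ∈ S, f x = f y → x = y := by
  classical
  refine ⟨fun x => if hx : x ∈ S then ⟨(S.equivFin ⟨x, hx⟩ : ℕ), by
    have := (S.equivFin ⟨x, hx⟩).2; omega⟩ else ⟨B, by omega⟩, ?_⟩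
  intro x hx y hy hxy
  simp only [] at hxy
  rw [dif_pos hx, dif_pos hy, Fin.mk.injEq] at hxy
  have h1 : S.equivFin ⟨x, hx⟩ = S.equivFin ⟨y, hy⟩ := Fin.ext hxy
  have h2 := S.equivFin.injective h1
  exact congrArg Subtype.val h2

end prelim

/-! ## constants -/

namespace Const

variable (k : Const)

/-- bound of `T` on short differences -/
def C1 : ℕ := 4 * k.C + 4 * k.F k.C + 2 * k.F 0

/-- enlarged density -/
def ρ' : ℕ := k.ρ + 7 * k.C + 2 * k.F 0

/-- chain length -/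
def Lam : ℕ := k.Λ (k.F (k.C1 + 2 * k.ρ'))

/-- the bound given by the contraction -/
def L0 : ℕ := k.R * (2 * k.Lam)

/-- radius of the types -/
def r1 : ℕ := k.L0 + k.C

/-- radius of the values -/
def r2 : ℕ := k.F (k.r1 + k.C) + k.C

/-- the colours -/
abbrev Col : Type := Option (Fin (k.B + 1) × Fin (k.B + 1) × Fin (k.B + 1) ×
  (Fin (k.β k.r1 + 1) → Fin (k.β k.r2 + 1)) × Fin k.q × Fin k.q × Fin k.q × Fin k.q)

end Const

section main

variable {k : Const} {Lmax : ℕ} {G : Type} [AddCommGroup G] {N : G → ℕ} {K : Set G}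
    {X Y U : Type} [Fintype X] [Fintype Y] [Fintype U]
    {vx : X → G} {vy : Y → G} {vu : U → G} {A : Finset (X × Y)} {th : X × Y → U}
    {pxy : X → Y → G} {pxu : X → U → G} {sq : X → G}
    {Mx : X → G → G} {My : Y → G → G} {Mu : U → G → G} {φ : G → G}
    {D1 D2 : Finset G}

theorem gC (h : KillData k Lmax N K vx vy vu A th pxy pxu sq Mx My Mu φ D1 D2) :
    CGroup N K k.C k.R k.β where
  two := h.two
  N0 := h.N0
  Nadd := h.Nadd
  zero := h.zero
  add a ha b hb := by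
    obtain ⟨c, hc, h1⟩ := h.add a ha b hb
    exact ⟨c, hc, le_trans h1 k.C0le⟩
  cover r := by
    obtain ⟨S, h1, h2, h3⟩ := h.cover r
    refine ⟨S, h1, h2, fun a ha hr => ?_⟩
    obtain ⟨s, hs, h4⟩ := h3 a ha hr
    exact ⟨s, hs, le_trans h4 k.C0le⟩
  chain := h.chain

theorem Mx0 (h : KillData k Lmax N K vx vy vu A th pxy pxu sq Mx My Mu φ D1 D2)
    {p : X × Y} (hp : p ∈ A) : N (Mx p.1 0) ≤ k.F 0 := by
  have h0 : N 0 ≤ Lmax := by rw [h.N0]; exact Nat.zero_le _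
  have h1 := h.Mxadd p hp 0 h.zero 0 h.zero 0 h.zero h0 h0 h0
  rwa [h.two, zero_add, add_zero, add_zero, h.N0] at h1

theorem Mx_lip (h : KillData k Lmax N K vx vy vu A th pxy pxu sq Mx My Mu φ D1 D2)
    {p : X × Y} (hp : p ∈ A) {u v : G} (hu : u ∈ K) (hv : v ∈ K) (hul : N u ≤ Lmax)
    (hvl : N v ≤ Lmax) :
    N (Mx p.1 u + Mx p.1 v) ≤ k.F (N (u + v)) + k.F 0 := by
  have h0 : N 0 ≤ Lmax := by rw [h.N0]; exact Nat.zero_le _
  have h1 := h.Mxadd p hp u hu v hv 0 h.zero hul hvl h0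
  rw [add_zero] at h1
  have h2 := h.le_add (Mx p.1 u + Mx p.1 v) (Mx p.1 0)
  have h3 := Mx0 h hp
  omega

theorem Mx_nrm (h : KillData k Lmax N K vx vy vu A th pxy pxu sq Mx My Mu φ D1 D2)
    {p : X × Y} (hp : p ∈ A) {u : G} (hu : u ∈ K) (hul : N u ≤ Lmax) :
    N (Mx p.1 u) ≤ k.F (N u) := by
  have h0 : N 0 ≤ Lmax := by rw [h.N0]; exact Nat.zero_le _
  have h1 := h.Mxadd p hp u hu 0 h.zero 0 h.zero hul h0 h0
  rwa [add_assoc, h.two, add_zero, add_zero, add_zero] at h1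

/-- the types: finitely many, two symbols of the same type act in the same way on small elements -/
theorem exists_type (h : KillData k Lmax N K vx vy vu A th pxy pxu sq Mx My Mu φ D1 D2)
    (hL : k.r1 + k.C ≤ Lmax) :
    ∃ ty : X → Fin (k.β k.r1 + 1) → Fin (k.β k.r2 + 1), ∀ p ∈ A, ∀ p' ∈ A, ty p.1 = ty p'.1 →
      ∀ f ∈ K, N f ≤ k.r1 →
        N (Mx p.1 f + Mx p'.1 f) ≤ 4 * k.C + 2 * k.F k.C + 2 * k.F 0 := by
  classical
  obtain ⟨eA, hAK, hA⟩ := cover_fin (gC h) k.r1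
  obtain ⟨eB, hBK, hB⟩ := cover_fin (gC h) k.r2
  refine ⟨fun x i => if hx : ∃ j, N (Mx x (eA i) + eB j) ≤ 2 * k.C then hx.choose else 0, ?_⟩
  intro p hp p' hp' hty f hf hfr
  obtain ⟨i, hi⟩ := hA f hf hfr
  have hni : N (eA i) ≤ k.r1 + k.C := by
    have h1 := h.le_add (eA i) f
    rw [add_comm (eA i) f] at h1
    omega
  have hex : ∀ p ∈ A, ∃ j, N (Mx p.1 (eA i) + eB j) ≤ 2 * k.C := by
    intro p hp
    obtain ⟨v, hvK, hv⟩ := h.MxK p hp _ (hAK i) (by omega)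
    have h1 := Mx_nrm h hp (hAK i) (by omega)
    have h2 := k.Fmono hni
    have h3 : N v ≤ k.r2 := by
      have h4 := h.le_add v (Mx p.1 (eA i))
      rw [add_comm v] at h4
      unfold Const.r2
      omega
    obtain ⟨j, hj⟩ := hB v hvK h3
    refine ⟨j, ?_⟩
    have h5 := tri (gC h) (Mx p.1 (eA i)) (eB j) v
    rw [add_comm (eB j) v] at h5
    omega
  have ht := congrFun hty i
  simp only [] at ht
  rw [dif_pos (hex p hp), dif_pos (hex p' hp')] at ht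
  have h1 := (hex p hp).choose_spec
  have h2 := (hex p' hp').choose_spec
  rw [← ht] at h2
  have h3 := tri (gC h) (Mx p.1 (eA i)) (Mx p'.1 (eA i)) (eB (hex p hp).choose)
  have h4 := Mx_lip h hp hf (hAK i) (by omega) (by omega)
  have h5 := Mx_lip h hp' hf (hAK i) (by omega) (by omega)
  have h6 := k.Fmono hi
  have h7 := tri (gC h) (Mx p.1 f) (Mx p'.1 f) (Mx p'.1 (eA i))
  have h8 := tri (gC h) (Mx p.1 f) (Mx p'.1 (eA i)) (Mx p.1 (eA i))
  rw [add_comm (Mx p'.1 (eA i)) (Mx p.1 (eA i))] at h8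
  omega

/-- the contraction for two symbols of the same type -/
theorem same_type (h : KillData k Lmax N K vx vy vu A th pxy pxu sq Mx My Mu φ D1 D2)
    {ty : X → Fin (k.β k.r1 + 1) → Fin (k.β k.r2 + 1)}
    (hty : ∀ p ∈ A, ∀ p' ∈ A, ty p.1 = ty p'.1 → ∀ f ∈ K, N f ≤ k.r1 →
        N (Mx p.1 f + Mx p'.1 f) ≤ 4 * k.C + 2 * k.F k.C + 2 * k.F 0)
    {S1 S2 S3 : ℕ} (hS1 : S1 ≤ Lmax) (hS2 : S2 ≤ Lmax) (hS3 : S3 ≤ Lmax) (hL : k.r1 ≤ Lmax)
    (hS12 : 2 * k.F S1 + 3 * k.C ≤ S2) (hS23 : k.E S2 ≤ S3)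
    {p p' : X × Y} (hp : p ∈ A) (hp' : p' ∈ A) (ht : ty p.1 = ty p'.1) {e : G} (he : e ∈ K)
    (heS : N e ≤ S3) (hlen : ∃ l, Chain N K k.R l 0 e ∧ k.R * l ≤ S1)
    (hs : N (φ e + Mx p.1 e + Mx p'.1 e) ≤ 7 * k.C) : N e ≤ k.L0 := by
  have hlt : 0 < k.Lam := k.Λpos _
  refine contraction (gC h) (T := fun g => Mx p.1 g + Mx p'.1 g) (φ := φ) (F := k.F) k.Fmono
    (ρ := k.ρ') (C1 := k.C1) (S1 := S1) (S3 := S3) hlt (h.chainΛ _) ?_ ?_ ?_ ?_ he heS hlen ?_
  · have h1 := Mx0 h hp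
    have h2 := Mx0 h hp'
    have h3 := h.φ0
    have h4 := h.Nadd (φ 0) (Mx p.1 0 + Mx p'.1 0)
    have h5 := h.Nadd (Mx p.1 0) (Mx p'.1 0)
    simp only [Const.ρ']
    omega
  · intro u hu huS
    obtain ⟨v1, hv1, hn1⟩ := h.MxK p hp u hu (by omega)
    obtain ⟨v2, hv2, hn2⟩ := h.MxK p' hp' u hu (by omega)
    obtain ⟨v3, hv3, hn3⟩ := (gC h).add v1 hv1 v2 hv2
    have hv3S : N v3 ≤ S2 := by
      have g1 := Mx_nrm h hp hu (by omega)
      have g2 := Mx_nrm h hp' hu (by omega)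
      have g3 := k.Fmono huS
      have g4 := h.le_add v1 (Mx p.1 u)
      have g5 := h.le_add v2 (Mx p'.1 u)
      rw [add_comm v1] at g4
      rw [add_comm v2] at g5
      have g6 := h.Nadd v1 v2
      have g7 := h.le_add v3 (v1 + v2)
      rw [add_comm v3] at g7
      omega
    obtain ⟨v, hv, hvE, hn⟩ := h.φdense v3 hv3 (by omega)
    refine ⟨v, hv, le_trans hvE (le_trans (k.Emono hv3S) hS23), ?_⟩
    have h1 := h.Nadd (Mx p.1 u + v1) (Mx p'.1 u + v2)
    have h2 := tri (gC h) (φ v) (Mx p.1 u + Mx p'.1 u) v3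
    have h3 := h.Nadd (Mx p.1 u + v1 + (Mx p'.1 u + v2)) (v1 + v2 + v3)
    have h4 : Mx p.1 u + v1 + (Mx p'.1 u + v2) + (v1 + v2 + v3) =
        Mx p.1 u + Mx p'.1 u + v3 := by
      have h5 : Mx p.1 u + v1 + (Mx p'.1 u + v2) + (v1 + v2 + v3) =
        Mx p.1 u + Mx p'.1 u + v3 + (v1 + v1) + (v2 + v2) := by abel
      rw [h5, h.two, h.two, add_zero, add_zero]
    rw [h4] at h3
    simp only [Const.ρ']
    omega
  · intro u hu v hv hul hvl
    exact h.φinv u hu v hv (by omega) (by omega)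
  · intro u hu v hv hul hvl huv
    obtain ⟨f, hf, hfn⟩ := (gC h).add u hu v hv
    have hfr : N f ≤ k.r1 := by
      have h1 := h.le_add f (u + v)
      rw [add_comm f] at h1
      have h2 : N (u + v) ≤ k.L0 := huv
      unfold Const.r1
      omega
    have h1 := hty p hp p' hp' ht f hf hfr
    have h2 := h.Mxadd p hp u hu v hv f hf (by omega) (by omega) (by omega)
    have h3 := h.Mxadd p' hp' u hu v hv f hf (by omega) (by omega) (by omega)
    have h4 := k.Fmono hfn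
    have h5 := h.Nadd (Mx p.1 u + Mx p.1 v + Mx p.1 f) (Mx p'.1 u + Mx p'.1 v + Mx p'.1 f)
    have h6 : Mx p.1 u + Mx p.1 v + Mx p.1 f + (Mx p'.1 u + Mx p'.1 v + Mx p'.1 f) =
        Mx p.1 u + Mx p'.1 u + (Mx p.1 v + Mx p'.1 v) + (Mx p.1 f + Mx p'.1 f) := by abel
    rw [h6] at h5
    have h7 := h.le_add (Mx p.1 u + Mx p'.1 u + (Mx p.1 v + Mx p'.1 v))
      (Mx p.1 f + Mx p'.1 f)
    simp only [Const.C1]
    omega
  · simp only [Const.ρ']
    rw [← add_assoc]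
    omega

/-- the sum of the seven relations of a corner -/
theorem seven (h : KillData k Lmax N K vx vy vu A th pxy pxu sq Mx My Mu φ D1 D2)
    {x x' : X} {y y' : Y} (hA2 : (x, y) ∈ A) (hA3 : (x', y') ∈ A)
    (hu : th (x, y) = th (x', y')) {e : G} (he : e ∈ K) (hel : N e ≤ Lmax)
    (h1 : N (pxy x y + pxy x' y + My y e) ≤ k.C)
    (h2 : N (pxy x' y + pxy x' y' + Mx x' e) ≤ k.C)
    (h3 : N (pxu x (th (x, y)) + pxu x' (th (x, y)) + Mu (th (x, y)) e) ≤ k.C)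
    (h4 : N (sq x + sq x' + φ e) ≤ k.C) :
    N (φ e + Mx x e + Mx x' e) ≤ 7 * k.C := by
  have h5 := h.ident (x, y) hA2
  have h6 := h.ident (x', y') hA3
  have h7 := h.hsum (x, y) hA2 e he hel
  simp only [] at h5 h6 h7
  rw [← hu] at h6
  set u := th (x, y) with hudef
  have key : φ e + Mx x e + Mx x' e = (pxy x y + pxy x' y + My y e) +
      (pxy x' y + pxy x' y' + Mx x' e) + (pxu x u + pxu x' u + Mu u e) +
      (sq x + sq x' + φ e) + (sq x + pxy x y + pxu x u) + (sq x' + pxy x' y' + pxu x' u) +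
      (Mx x e + My y e + Mu u e) := by
    have h8 : (pxy x y + pxy x' y + My y e) +
      (pxy x' y + pxy x' y' + Mx x' e) + (pxu x u + pxu x' u + Mu u e) +
      (sq x + sq x' + φ e) + (sq x + pxy x y + pxu x u) + (sq x' + pxy x' y' + pxu x' u) +
      (Mx x e + My y e + Mu u e) = φ e + Mx x e + Mx x' e + (pxy x y + pxy x y) +
        (pxy x' y + pxy x' y) + (My y e + My y e) + (pxy x' y' + pxy x' y') +
        (pxu x u + pxu x u) + (pxu x' u + pxu x' u) + (Mu u e + Mu u e) + (sq x + sq x) +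
        (sq x' + sq x') := by abel
    rw [h8]
    simp only [h.two, add_zero]
  rw [key]
  have g1 := h.Nadd ((pxy x y + pxy x' y + My y e) +
      (pxy x' y + pxy x' y' + Mx x' e) + (pxu x u + pxu x' u + Mu u e) +
      (sq x + sq x' + φ e) + (sq x + pxy x y + pxu x u) + (sq x' + pxy x' y' + pxu x' u))
      (Mx x e + My y e + Mu u e)
  have g2 := h.Nadd ((pxy x y + pxy x' y + My y e) +
      (pxy x' y + pxy x' y' + Mx x' e) + (pxu x u + pxu x' u + Mu u e) +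
      (sq x + sq x' + φ e) + (sq x + pxy x y + pxu x u)) (sq x' + pxy x' y' + pxu x' u)
  have g3 := h.Nadd ((pxy x y + pxy x' y + My y e) +
      (pxy x' y + pxy x' y' + Mx x' e) + (pxu x u + pxu x' u + Mu u e) +
      (sq x + sq x' + φ e)) (sq x + pxy x y + pxu x u)
  have g4 := h.Nadd ((pxy x y + pxy x' y + My y e) +
      (pxy x' y + pxy x' y' + Mx x' e) + (pxu x u + pxu x' u + Mu u e)) (sq x + sq x' + φ e)
  have g5 := h.Nadd ((pxy x y + pxy x' y + My y e) +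
      (pxy x' y + pxy x' y' + Mx x' e)) (pxu x u + pxu x' u + Mu u e)
  have g6 := h.Nadd (pxy x y + pxy x' y + My y e) (pxy x' y + pxy x' y' + Mx x' e)
  omega

end main

/-- **8e: `K*` is bounded.**  (`Lmax` and the bound `L` depend on the constants only.) -/
theorem kill (k : Const) : ∃ Lmax L : ℕ, ∀ {G : Type} [AddCommGroup G] {N : G → ℕ} {K : Set G}
    {X Y U : Type} [Fintype X] [Fintype Y] [Fintype U]
    {vx : X → G} {vy : Y → G} {vu : U → G} {A : Finset (X × Y)} {th : X × Y → U}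
    {pxy : X → Y → G} {pxu : X → U → G} {sq : X → G}
    {Mx : X → G → G} {My : Y → G → G} {Mu : U → G → G} {φ : G → G}
    {D1 D2 : Finset G},
    KillData k Lmax N K vx vy vu A th pxy pxu sq Mx My Mu φ D1 D2 →
      ∀ e ∈ K, N e ≤ L := by
  classical
  set δ : ℝ := k.c / ((k.B : ℝ) + 1) ^ 2 with hδ
  have hδ0 : 0 < δ := div_pos k.cpos (by positivity)
  obtain ⟨m, hm⟩ := Pool.Agent.helper57.MF.corners hδ0 (Fintype.card k.Col)
  obtain ⟨L1, hL1⟩ := Pool.Agent.helper57.MF.spread k.C0 k.R k.β m k.L0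
  set S0 : ℕ := 2 * L1 + k.C0 with hS0
  set S1 : ℕ := k.R * k.Λ S0 with hS1
  set S2 : ℕ := 2 * k.F S1 + 3 * k.C with hS2
  set S3 : ℕ := k.E S2 + S0 with hS3
  refine ⟨S0 + S1 + S2 + S3 + k.r1 + k.C + k.κ, L1, ?_⟩
  intro G _ N K X Y U _ _ _ vx vy vu A th pxy pxu sq Mx My Mu φ D1 D2 h e0 he0
  by_contra hcon
  push Not at hcon
  obtain ⟨s, hsK, hsadd, hsup, hsbig⟩ := hL1 h.toCGroup ⟨e0, he0, hcon⟩
  obtain ⟨ty, hty⟩ := exists_type h (by omega)
  obtain ⟨p0, hp0⟩ := h.Apos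
  -- the base point
  have hB1 : ∀ g : G, (Finset.univ.filter fun x : X => N (vx x + g) ≤ k.κ).card ≤ k.B :=
    fun g => h.ball1 g _ fun x hx => (Finset.mem_filter.1 hx).2
  have hB2 : ∀ g : G, (Finset.univ.filter fun y : Y => N (vy y + g) ≤ k.κ).card ≤ k.B :=
    fun g => h.ball2 g _ fun x hx => (Finset.mem_filter.1 hx).2
  have hB3 : ∀ g : G, (Finset.univ.filter fun u : U =>
      N (vu u + g) ≤ 2 * k.κ + 10 * k.C0).card ≤ k.B :=
    fun g => h.ball3 g _ fun x hx => (Finset.mem_filter.1 hx).2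
  have hD1 : D1.Nonempty := by
    obtain ⟨d, hd, -⟩ := h.net1 p0.1 0 h.zero
    exact ⟨d, hd⟩
  have hD2 : D2.Nonempty := by
    obtain ⟨d, hd, -⟩ := h.net2 p0.2 0 h.zero
    exact ⟨d, hd⟩
  obtain ⟨d1, d2, P, hav, hline⟩ := Pool.Agent.helper57.MF.average (m := m) N A vx vy D1 D2 s
    k.κ k.B (fun x a => h.net1 x _ (hsK a)) (fun y a => h.net2 y _ (hsK a)) hB1 hB2
  have hPcard : δ * (4 : ℝ) ^ m ≤ (P.card : ℝ) := by
    have h1 : ((A.card : ℝ)) * 4 ^ m ≤ (D1.card : ℝ) * D2.card * k.B * k.B * P.card := by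
      exact_mod_cast hav
    have h2 := h.dens
    have h3 : (0 : ℝ) < (D1.card : ℝ) * D2.card := by
      have h4 : 0 < D1.card := hD1.card_pos
      have h5 : 0 < D2.card := hD2.card_pos
      positivity
    have h4 : k.c * ((D1.card : ℝ) * D2.card) * 4 ^ m ≤
        (D1.card : ℝ) * D2.card * k.B * k.B * P.card :=
      le_trans (mul_le_mul_of_nonneg_right h2 (by positivity)) h1
    have h5 : k.c * 4 ^ m ≤ k.B * k.B * P.card := by
      have h6 : ((D1.card : ℝ) * D2.card) * (k.c * 4 ^ m) ≤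
          ((D1.card : ℝ) * D2.card) * (k.B * k.B * P.card) := by
        calc _ = k.c * ((D1.card : ℝ) * D2.card) * 4 ^ m := by ring
          _ ≤ _ := h4
          _ = _ := by ring
      exact le_of_mul_le_mul_left h6 h3
    have h7 : (k.B : ℝ) * k.B * P.card ≤ ((k.B : ℝ) + 1) ^ 2 * P.card := by
      have h8 : (k.B : ℝ) * k.B ≤ ((k.B : ℝ) + 1) ^ 2 := by nlinarith [Nat.cast_nonneg (α := ℝ) k.B]
      exact mul_le_mul_of_nonneg_right h8 (Nat.cast_nonneg _)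
    rw [hδ, div_mul_eq_mul_div, div_le_iff₀ (by positivity)]
    calc k.c * 4 ^ m ≤ _ := h5
      _ ≤ _ := h7
      _ = _ := by ring
  -- the numberings
  have hn1 : ∀ g : G, ∃ f : X → Fin (k.B + 1), ∀ x, N (vx x + g) ≤ k.κ → ∀ x',
      N (vx x' + g) ≤ k.κ → f x = f x' → x = x' := by
    intro g
    obtain ⟨f, hf⟩ := number _ k.B (hB1 g)
    exact ⟨f, fun x hx x' hx' hxx => hf x (by simpa using hx) x' (by simpa using hx') hxx⟩
  have hn2 : ∀ g : G, ∃ f : Y → Fin (k.B + 1), ∀ x, N (vy x + g) ≤ k.κ → ∀ x',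
      N (vy x' + g) ≤ k.κ → f x = f x' → x = x' := by
    intro g
    obtain ⟨f, hf⟩ := number _ k.B (hB2 g)
    exact ⟨f, fun x hx x' hx' hxx => hf x (by simpa using hx) x' (by simpa using hx') hxx⟩
  have hn3 : ∀ g : G, ∃ f : U → Fin (k.B + 1), ∀ x, N (vu x + g) ≤ 2 * k.κ + 10 * k.C0 → ∀ x',
      N (vu x' + g) ≤ 2 * k.κ + 10 * k.C0 → f x = f x' → x = x' := by
    intro g
    obtain ⟨f, hf⟩ := number _ k.B (hB3 g)
    exact ⟨f, fun x hx x' hx' hxx => hf x (by simpa using hx) x' (by simpa using hx') hxx⟩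
  choose f1 hf1 using hn1
  choose f2 hf2 using hn2
  choose f3 hf3 using hn3
  let ln : V m × V m → X × Y := fun p => if hp : p ∈ P then (hline p hp).choose else p0
  have hln : ∀ p ∈ P, ln p ∈ A ∧ N (vx (ln p).1 + s p.1 + d1) ≤ k.κ ∧
      N (vy (ln p).2 + s p.2 + d2) ≤ k.κ := by
    intro p hp
    simp only [ln]
    rw [dif_pos hp]
    exact (hline p hp).choose_spec
  obtain ⟨c1, hc1⟩ := h.h1 d1
  obtain ⟨c2, hc2⟩ := h.h2 d2
  obtain ⟨c3, hc3⟩ := h.h3 d1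
  obtain ⟨c4, hc4⟩ := h.h4 d1
  let col0 : V m × V m → k.Col := fun p => some (f1 (s p.1 + d1) (ln p).1,
    f2 (s p.2 + d2) (ln p).2, f3 (s (p.1 + p.2) + d1 + d2) (th (ln p)), ty (ln p).1,
    c1 (ln p).2 (ln p).1, c2 (ln p).1 (ln p).2, c3 (th (ln p)) (ln p).1, c4 (ln p).1)
  obtain ⟨a, b, d, hd0, hab, hadb, habd, hcol1, hcol2⟩ :=
    hm P (fun p => Fintype.equivFin k.Col (col0 p)) hPcard
  have hcol1' : col0 (a, b) = col0 (a + d, b) := (Fintype.equivFin k.Col).injective hcol1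
  have hcol2' : col0 (a, b) = col0 (a, b + d) := (Fintype.equivFin k.Col).injective hcol2
  simp only [col0, Option.some.injEq, Prod.mk.injEq] at hcol1' hcol2'
  obtain ⟨-, i2, i3, i4, i5, i6, i7, i8⟩ := hcol1'
  obtain ⟨j1, -, j3, j4, j5, j6, j7, j8⟩ := hcol2'
  obtain ⟨hA1, hx1, hy1⟩ := hln _ hab
  obtain ⟨hA2, hx2, hy2⟩ := hln _ hadb
  obtain ⟨hA3, hx3, hy3⟩ := hln _ habd
  set q1 := ln (a, b) with hq1
  set q2 := ln (a + d, b) with hq2
  set q3 := ln (a, b + d) with hq3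
  simp only [] at hx1 hy1 hx2 hy2 hx3 hy3
  have hx13 : q1.1 = q3.1 := hf1 (s a + d1) _ (by rwa [← add_assoc]) _ (by rwa [← add_assoc]) j1
  have hy12 : q1.2 = q2.2 := hf2 (s b + d2) _ (by rwa [← add_assoc]) _ (by rwa [← add_assoc]) i2
  have hthn : ∀ (q : X × Y) (a b : V m), q ∈ A → N (vx q.1 + s a + d1) ≤ k.κ →
      N (vy q.2 + s b + d2) ≤ k.κ →
      N (vu (th q) + (s (a + b) + d1 + d2)) ≤ 2 * k.κ + 10 * k.C0 := by
    intro q a b hq h1 h2
    have h3 := h.line q hq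
    have h4 := hsadd a b
    have h5 : vu (th q) + (s (a + b) + d1 + d2) = (vx q.1 + vy q.2 + vu (th q)) +
        (vx q.1 + s a + d1) + (vy q.2 + s b + d2) + (s a + s b + s (a + b)) := by
      have h6 : (vx q.1 + vy q.2 + vu (th q)) +
        (vx q.1 + s a + d1) + (vy q.2 + s b + d2) + (s a + s b + s (a + b)) =
        vu (th q) + (s (a + b) + d1 + d2) + (vx q.1 + vx q.1) + (vy q.2 + vy q.2) +
        (s a + s a) + (s b + s b) := by abel
      rw [h6]
      simp only [h.two, add_zero]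
    rw [h5]
    have g1 := h.Nadd ((vx q.1 + vy q.2 + vu (th q)) + (vx q.1 + s a + d1) +
      (vy q.2 + s b + d2)) (s a + s b + s (a + b))
    have g2 := h.Nadd ((vx q.1 + vy q.2 + vu (th q)) + (vx q.1 + s a + d1)) (vy q.2 + s b + d2)
    have g3 := h.Nadd (vx q.1 + vy q.2 + vu (th q)) (vx q.1 + s a + d1)
    omega
  have hu23 : th q2 = th q3 := by
    have h1 := hthn q2 (a + d) b hA2 hx2 hy2
    have h2 := hthn q3 a (b + d) hA3 hx3 hy3
    have h3 : a + d + b = a + (b + d) := by abel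
    rw [h3] at h1
    have h4 := i3.symm.trans j3
    rw [h3] at h4
    exact hf3 _ _ h1 _ h2 h4
  have hdx : N (vx q2.1 + vx q1.1 + s d) ≤ 2 * k.κ + 9 * k.C0 := by
    have h4 := hsadd a d
    have h5 : vx q2.1 + vx q1.1 + s d = (vx q2.1 + s (a + d) + d1) + (vx q1.1 + s a + d1) +
        (s a + s d + s (a + d)) := by
      have h6 : (vx q2.1 + s (a + d) + d1) + (vx q1.1 + s a + d1) +
        (s a + s d + s (a + d)) = vx q2.1 + vx q1.1 + s d + (s (a + d) + s (a + d)) +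
        (d1 + d1) + (s a + s a) := by abel
      rw [h6]
      simp only [h.two, add_zero]
    rw [h5]
    have g1 := h.Nadd ((vx q2.1 + s (a + d) + d1) + (vx q1.1 + s a + d1))
      (s a + s d + s (a + d))
    have g2 := h.Nadd (vx q2.1 + s (a + d) + d1) (vx q1.1 + s a + d1)
    omega
  have hdy : N (vy q1.2 + vy q3.2 + s d) ≤ 2 * k.κ + 9 * k.C0 := by
    have h4 := hsadd b d
    have h5 : vy q1.2 + vy q3.2 + s d = (vy q3.2 + s (b + d) + d2) + (vy q1.2 + s b + d2) +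
        (s b + s d + s (b + d)) := by
      have h6 : (vy q3.2 + s (b + d) + d2) + (vy q1.2 + s b + d2) +
        (s b + s d + s (b + d)) = vy q1.2 + vy q3.2 + s d + (s (b + d) + s (b + d)) +
        (d2 + d2) + (s b + s b) := by abel
      rw [h6]
      simp only [h.two, add_zero]
    rw [h5]
    have g1 := h.Nadd ((vy q3.2 + s (b + d) + d2) + (vy q1.2 + s b + d2))
      (s b + s d + s (b + d))
    have g2 := h.Nadd (vy q3.2 + s (b + d) + d2) (vy q1.2 + s b + d2)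
    omega
  -- rename: `x' = q1.1 = q3.1`, `y = q1.2 = q2.2`
  have e1 : (q1.1, q1.2) = q1 := rfl
  have e2 : (q2.1, q1.2) = q2 := by rw [hy12]
  have e3 : (q1.1, q3.2) = q3 := by rw [hx13]
  have hcen : ∀ (g t u : G), N (g + t + u) ≤ k.κ → N t ≤ S0 →
      N (g + u) ≤ S0 + S1 + S2 + S3 + k.r1 + k.C + k.κ := by
    intro g t u h1 h2
    have h3 := h.le_add (g + u) t
    have h4 : g + u + t = g + t + u := by abel
    rw [h4] at h3
    omega
  have hsd : N (s d) ≤ S0 + S1 + S2 + S3 + k.r1 + k.C + k.κ := le_trans (hsup d) (by omega)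
  have r1 := hc1 q2.1 q1.1 q1.2 (by rw [e2]; exact hA2) (by rw [e1]; exact hA1)
    (hcen _ _ _ hx2 (hsup _)) (hcen _ _ _ hx1 (hsup _)) (by rw [i5, hy12]) _ (hsK d) hsd hdx
  have r2 := hc2 q1.1 q1.2 q3.2 (by rw [e1]; exact hA1) (by rw [e3]; exact hA3)
    (hcen _ _ _ hy1 (hsup _)) (hcen _ _ _ hy3 (hsup _)) (by rw [j6, hx13]) _ (hsK d) hsd hdy
  have h37 : c3 (th q2) q2.1 = c3 (th q2) q3.1 := by
    have h1 := i7.symm.trans j7
    rwa [← hu23] at h1
  have r3 := hc3 q2 hA2 q3 hA3 hu23 (hcen _ _ _ hx2 (hsup _)) (hcen _ _ _ hx3 (hsup _)) h37 _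
    (hsK d) hsd (by rw [← hx13]; exact hdx)
  have r4 := hc4 q2 hA2 q1 hA1 (hcen _ _ _ hx2 (hsup _)) (hcen _ _ _ hx1 (hsup _)) i8.symm _
    (hsK d) hsd hdx
  have hkey := seven h (x := q2.1) (x' := q1.1) (y := q1.2) (y' := q3.2)
    (by rw [e2]; exact hA2) (by rw [e3]; exact hA3) (by rw [e2, e3]; exact hu23) (hsK d) hsd
    r1 r2 (by rw [e2, hx13]; exact r3) r4
  obtain ⟨l, hl, hch⟩ := h.chainΛ S0 0 h.zero (s d) (hsK d) (by rw [zero_add]; exact hsup d)
  have hfin := same_type h hty (S1 := S1) (S2 := S2) (S3 := S3) (by omega) (by omega)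
    (by omega) (by omega) le_rfl (by omega) hA2 hA1 i4.symm (hsK d)
    (le_trans (hsup d) (by omega)) ⟨l, hch, Nat.mul_le_mul_left _ hl⟩ hkey
  have hb := hsbig d hd0
  omega

end Pool.Agent.MF.S8
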